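import Pool.Agent.Run7.h402.PG.IfaceS

/-!
# Project PG (helper402), piece LC: the variance at the large primes
-/

set_option autoImplicit false

open Finset Polynomial

namespace Run7.h305.PG

open Run7.h402.PG

/-- the number of roots depends on the constant coefficient modulo `p` only -/
theorem rho_congr (f : ℤ[X]) (x y : ℤ) (p : ℕ) (h : (p : ℤ) ∣ x - y) : rho f x p = rho f y p := by
  unfold rho
  congr 1
  apply Finset.filter_congr
  intro n _
  have h1 : f.eval (n : ℤ) + x = (f.eval (n : ℤ) + y) + (x - y) := by ring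
  rw [h1]
  exact dvd_add_left h

/-- one solution of a linear congruence -/
theorem one_sol (q : ℕ) (hq : q.Prime) (W : ℤ) (hW : ¬ (q : ℤ) ∣ W) (t : ℤ) :
    ((range q).filter (fun b : ℕ => (q : ℤ) ∣ t + W * (b : ℤ))).card = 1 := by
  have : Fact q.Prime := ⟨hq⟩
  have hW' : (W : ZMod q) ≠ 0 := by
    rw [Ne, ZMod.intCast_zmod_eq_zero_iff_dvd]
    exact hW
  rw [Finset.card_eq_one]
  refine ⟨((-(t : ZMod q)) / (W : ZMod q)).val, ?_⟩
  ext b
  simp only [Finset.mem_filter, Finset.mem_range, Finset.mem_singleton]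
  constructor
  · rintro ⟨h1, h2⟩
    have h3 : ((t + W * (b : ℤ) : ℤ) : ZMod q) = 0 := (ZMod.intCast_zmod_eq_zero_iff_dvd _ _).2 h2
    push_cast at h3
    have h4 : (b : ZMod q) = (-(t : ZMod q)) / (W : ZMod q) := by
      rw [eq_div_iff hW']
      linear_combination h3
    rw [← h4, ZMod.val_natCast, Nat.mod_eq_of_lt h1]
  · intro h
    rw [h]
    refine ⟨ZMod.val_lt _, ?_⟩
    rw [← ZMod.intCast_zmod_eq_zero_iff_dvd]
    push_cast
    rw [ZMod.natCast_val, ZMod.cast_id, mul_div_cancel₀ _ hW']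
    ring

/-- the mean number of roots is one -/
theorem sum_rho (f : ℤ[X]) (q : ℕ) (hq : q.Prime) (W c : ℤ) (hW : ¬ (q : ℤ) ∣ W) :
    ∑ b ∈ range q, rho f (W * (b : ℤ) + c) q = q := by
  unfold rho
  simp only [Finset.card_filter]
  rw [Finset.sum_comm]
  have h1 : ∀ n ∈ range q, (∑ b ∈ range q,
      if (q : ℤ) ∣ f.eval (n : ℤ) + (W * (b : ℤ) + c) then 1 else 0) = 1 := by
    intro n _
    have h2 := one_sol q hq W hW (f.eval (n : ℤ) + c)
    rw [Finset.card_filter] at h2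
    refine Eq.trans ?_ h2
    refine Finset.sum_congr rfl fun b _ => ?_
    have h3 : f.eval (n : ℤ) + (W * (b : ℤ) + c) = f.eval (n : ℤ) + c + W * (b : ℤ) := by ring
    rw [h3]
  rw [Finset.sum_congr rfl h1]
  simp

/-- a periodic function with sum zero over a period -/
theorem per_sum (T : ℕ) (hT : 0 < T) (G : ℕ → ℝ) (M : ℝ) (hG : ∀ u, G (T + u) = G u)
    (h0 : ∑ u ∈ range T, G u = 0) (hM : ∀ u, |G u| ≤ M) (U : ℕ) :
    |∑ u ∈ range U, G u| ≤ T * M := by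
  have h1 : ∀ k s : ℕ, ∑ u ∈ range (T * k + s), G u = ∑ u ∈ range s, G u := by
    intro k s
    induction k with
    | zero => simp
    | succ k ih =>
      have h2 : T * (k + 1) + s = T + (T * k + s) := by ring
      rw [h2, Finset.sum_range_add, h0, zero_add, ← ih]
      exact Finset.sum_congr rfl fun u _ => hG u
  have h2 : U = T * (U / T) + U % T := (Nat.div_add_mod U T).symm
  rw [h2, h1]
  have hM0 : 0 ≤ M := le_trans (abs_nonneg _) (hM 0)
  calc |∑ u ∈ range (U % T), G u| ≤ ∑ u ∈ range (U % T), |G u| := Finset.abs_sum_le_sum_abs _ _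
    _ ≤ ∑ u ∈ range (U % T), M := Finset.sum_le_sum fun u _ => hM u
    _ = ((U % T : ℕ) : ℝ) * M := by rw [Finset.sum_const, Finset.card_range, nsmul_eq_mul]
    _ ≤ T * M := by
      refine mul_le_mul_of_nonneg_right ?_ hM0
      exact_mod_cast (Nat.mod_lt U hT).le

/-- the sum over a period `p q` -/
theorem pq_sum (f : ℤ[X]) (W : ℕ) (c : ℤ) (p q : ℕ) (hp : p.Prime) (hq : q.Prime) (hpq : p ≠ q)
    (hW : ¬ q ∣ W) :
    ∑ u ∈ range (q * p), (((rho f ((W : ℤ) * (u : ℕ) + c) p : ℝ) - 1) *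
      ((rho f ((W : ℤ) * (u : ℕ) + c) q : ℝ) - 1)) = 0 := by
  rw [Finset.sum_range, ← Equiv.sum_comp finProdFinEquiv, Fintype.sum_prod_type_right]
  apply Finset.sum_eq_zero
  intro y _
  have h1 : ∀ x : Fin q, rho f ((W : ℤ) * (((finProdFinEquiv (x, y) : Fin (q * p)) : ℕ) : ℤ) + c) p =
      rho f ((W : ℤ) * ((y : ℕ) : ℤ) + c) p := by
    intro x
    apply rho_congr
    rw [finProdFinEquiv_apply_val]
    push_cast
    refine ⟨(W : ℤ) * (x : ℕ), ?_⟩
    ring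
  simp only [h1]
  rw [← Finset.mul_sum]
  have hW' : ¬ (q : ℤ) ∣ ((W : ℤ) * p) := by
    intro h
    have h2 : q ∣ W * p := by exact_mod_cast h
    rcases (Nat.Prime.dvd_mul hq).1 h2 with h3 | h3
    · exact hW h3
    · exact hpq ((Nat.prime_dvd_prime_iff_eq hq hp).1 h3).symm
  have h2 := sum_rho f q hq ((W : ℤ) * p) ((W : ℤ) * ((y : ℕ) : ℤ) + c) hW'
  have h3 : ∑ x : Fin q, ((rho f ((W : ℤ) * (((finProdFinEquiv (x, y) : Fin (q * p)) : ℕ) : ℤ) + c) q : ℝ) - 1) =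
      ∑ b ∈ range q, ((rho f (((W : ℤ) * p) * (b : ℤ) + ((W : ℤ) * ((y : ℕ) : ℤ) + c)) q : ℝ) - 1) := by
    rw [Finset.sum_range]
    refine Finset.sum_congr rfl fun x _ => ?_
    have h4 : (W : ℤ) * (((finProdFinEquiv (x, y) : Fin (q * p)) : ℕ) : ℤ) + c =
        ((W : ℤ) * p) * ((x : ℕ) : ℤ) + ((W : ℤ) * ((y : ℕ) : ℤ) + c) := by
      rw [finProdFinEquiv_apply_val]
      push_cast
      ring
    rw [h4]
  rw [h3, Finset.sum_sub_distrib, Finset.sum_const, Finset.card_range]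
  have h5 : (∑ b ∈ range q, (rho f (((W : ℤ) * p) * (b : ℤ) + ((W : ℤ) * ((y : ℕ) : ℤ) + c)) q : ℝ)) = q := by
    exact_mod_cast h2
  rw [h5]
  simp

theorem t_LC (hNU : S_NU) : S_LC := by
  intro D U W c f Ps hD hf hPs
  have hb : ∀ p ∈ Ps, ∀ x : ℤ, |(rho f x p : ℝ) - 1| ≤ D := by
    intro p hp x
    have h1 : rho f x p ≤ D := hNU.1 D p f x (hPs p hp).1 hf (hPs p hp).2.2
    have h2 : (rho f x p : ℝ) ≤ D := by exact_mod_cast h1
    have h3 : (0 : ℝ) ≤ rho f x p := Nat.cast_nonneg _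
    have h4 : (1 : ℝ) ≤ D := by exact_mod_cast hD
    rw [abs_le]
    constructor <;> linarith
  have hpos : ∀ p ∈ Ps, (0 : ℝ) < p := fun p hp => by exact_mod_cast (hPs p hp).1.pos
  have hpair : ∀ p ∈ Ps, ∀ q ∈ Ps,
      ∑ u ∈ range U, (((rho f ((W : ℤ) * (u : ℕ) + c) p : ℝ) - 1) / p) *
        (((rho f ((W : ℤ) * (u : ℕ) + c) q : ℝ) - 1) / q) ≤
      (if p = q then (U : ℝ) * (D ^ 2 * (1 / (p : ℝ) ^ 2)) else 0) + D ^ 2 := by
    intro p hp q hq
    have hD2 : (0 : ℝ) ≤ (D : ℝ) ^ 2 := sq_nonneg _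
    split_ifs with h
    · subst h
      have h1 : ∀ u ∈ range U, (((rho f ((W : ℤ) * (u : ℕ) + c) p : ℝ) - 1) / p) *
          (((rho f ((W : ℤ) * (u : ℕ) + c) p : ℝ) - 1) / p) ≤ D ^ 2 * (1 / (p : ℝ) ^ 2) := by
        intro u _
        have h2 := hb p hp ((W : ℤ) * (u : ℕ) + c)
        have h3 : ((rho f ((W : ℤ) * (u : ℕ) + c) p : ℝ) - 1) ^ 2 ≤ (D : ℝ) ^ 2 :=
          sq_le_sq' (by linarith [(abs_le.1 h2).1]) (abs_le.1 h2).2
        have h4 : (((rho f ((W : ℤ) * (u : ℕ) + c) p : ℝ) - 1) / p) *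
            (((rho f ((W : ℤ) * (u : ℕ) + c) p : ℝ) - 1) / p) =
            ((rho f ((W : ℤ) * (u : ℕ) + c) p : ℝ) - 1) ^ 2 * (1 / (p : ℝ) ^ 2) := by
          have := (hpos p hp).ne'
          field_simp
        rw [h4]
        exact mul_le_mul_of_nonneg_right h3 (by positivity)
      have h2 := Finset.sum_le_sum h1
      rw [Finset.sum_const, Finset.card_range, nsmul_eq_mul] at h2
      linarith
    · rw [zero_add]
      have h1 := per_sum (q * p) (Nat.mul_pos (hPs q hq).1.pos (hPs p hp).1.pos)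
        (fun u => ((rho f ((W : ℤ) * (u : ℕ) + c) p : ℝ) - 1) *
          ((rho f ((W : ℤ) * (u : ℕ) + c) q : ℝ) - 1)) (D ^ 2) (by
            intro u
            have e1 : rho f ((W : ℤ) * ((q * p + u : ℕ) : ℤ) + c) p =
                rho f ((W : ℤ) * (u : ℕ) + c) p := by
              apply rho_congr
              push_cast
              exact ⟨(W : ℤ) * q, by ring⟩
            have e2 : rho f ((W : ℤ) * ((q * p + u : ℕ) : ℤ) + c) q =
                rho f ((W : ℤ) * (u : ℕ) + c) q := by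
              apply rho_congr
              push_cast
              exact ⟨(W : ℤ) * p, by ring⟩
            simp only [e1, e2])
        (pq_sum f W c p q (hPs p hp).1 (hPs q hq).1 h (hPs q hq).2.1) (by
            intro u
            rw [abs_mul, pow_two]
            exact mul_le_mul (hb p hp _) (hb q hq _) (abs_nonneg _) (Nat.cast_nonneg _)) U
      have h2 : ∑ u ∈ range U, (((rho f ((W : ℤ) * (u : ℕ) + c) p : ℝ) - 1) / p) *
          (((rho f ((W : ℤ) * (u : ℕ) + c) q : ℝ) - 1) / q) =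
          (∑ u ∈ range U, ((rho f ((W : ℤ) * (u : ℕ) + c) p : ℝ) - 1) *
            ((rho f ((W : ℤ) * (u : ℕ) + c) q : ℝ) - 1)) / (q * p) := by
        rw [Finset.sum_div]
        refine Finset.sum_congr rfl fun u _ => ?_
        rw [div_mul_div_comm, mul_comm (p : ℝ) (q : ℝ)]
      rw [h2, div_le_iff₀ (mul_pos (hpos q hq) (hpos p hp))]
      have h3 := (abs_le.1 h1).2
      push_cast at h3
      linarith
  have hexp : ∑ u ∈ range U, (∑ p ∈ Ps, ((rho f ((W : ℤ) * (u : ℕ) + c) p : ℝ) - 1) / p) ^ 2 =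
      ∑ p ∈ Ps, ∑ q ∈ Ps, ∑ u ∈ range U, (((rho f ((W : ℤ) * (u : ℕ) + c) p : ℝ) - 1) / p) *
        (((rho f ((W : ℤ) * (u : ℕ) + c) q : ℝ) - 1) / q) := by
    have h1 : ∀ u ∈ range U, (∑ p ∈ Ps, ((rho f ((W : ℤ) * (u : ℕ) + c) p : ℝ) - 1) / p) ^ 2 =
        ∑ p ∈ Ps, ∑ q ∈ Ps, (((rho f ((W : ℤ) * (u : ℕ) + c) p : ℝ) - 1) / p) *
        (((rho f ((W : ℤ) * (u : ℕ) + c) q : ℝ) - 1) / q) := by
      intro u _
      rw [pow_two, Finset.sum_mul_sum]
    rw [Finset.sum_congr rfl h1, Finset.sum_comm]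
    refine Finset.sum_congr rfl fun p _ => ?_
    rw [Finset.sum_comm]
  rw [hexp]
  have h1 : ∑ p ∈ Ps, ∑ q ∈ Ps, ∑ u ∈ range U, (((rho f ((W : ℤ) * (u : ℕ) + c) p : ℝ) - 1) / p) *
        (((rho f ((W : ℤ) * (u : ℕ) + c) q : ℝ) - 1) / q) ≤
      ∑ p ∈ Ps, ∑ q ∈ Ps, ((if p = q then (U : ℝ) * ((D : ℝ) ^ 2 * (1 / (p : ℝ) ^ 2)) else 0) + (D : ℝ) ^ 2) :=
    Finset.sum_le_sum fun p hp => Finset.sum_le_sum fun q hq => hpair p hp q hq
  refine h1.trans (le_of_eq ?_)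
  have h2 : ∀ p ∈ Ps, ∑ q ∈ Ps, ((if p = q then (U : ℝ) * ((D : ℝ) ^ 2 * (1 / (p : ℝ) ^ 2)) else 0) + (D : ℝ) ^ 2) =
      (U : ℝ) * ((D : ℝ) ^ 2 * (1 / (p : ℝ) ^ 2)) + Ps.card * (D : ℝ) ^ 2 := by
    intro p hp
    rw [Finset.sum_add_distrib, Finset.sum_ite_eq, if_pos hp, Finset.sum_const, nsmul_eq_mul]
  rw [Finset.sum_congr rfl h2, Finset.sum_add_distrib, Finset.sum_const, nsmul_eq_mul,
    ← Finset.mul_sum, ← Finset.mul_sum]
  ring

end Run7.h305.PG
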